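import Pool.Agent.H.MP_d44141_an.Defs

namespace Pool.Agent.H.MP_d44141_an
open MeasureTheory Filter Topology Finset

theorem kb {X : Type*} [TopologicalSpace X] [CompactSpace X] [TopologicalSpace.MetrizableSpace X]
    [MeasurableSpace X] [BorelSpace X] [TopologicalSpace.SeparableSpace X] (x : X) {T : X → X}
    (hT : Continuous T) : ∃ μ : Measure X, IsProbabilityMeasure μ ∧ MeasurePreserving T μ μ := by
  let ν : ℕ → Measure X := fun K =>
    (((K + 1 : ℕ) : ENNReal))⁻¹ • ∑ i ∈ range (K + 1), Measure.dirac (T^[i] x)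
  have hp : ∀ K, IsProbabilityMeasure (ν K) := fun K => ⟨by
    simp only [ν, Measure.smul_apply, Measure.finsetSum_apply, measure_univ, smul_eq_mul,
      sum_const, card_range, nsmul_eq_mul, mul_one]
    exact ENNReal.inv_mul_cancel (by simp) (by simp)⟩
  let ν' : ℕ → ProbabilityMeasure X := fun K => ⟨ν K, hp K⟩
  obtain ⟨μ, -, hμ⟩ := isCompact_univ.ultrafilter_le_nhds ((hyperfilter ℕ).map ν') (by simp)
  have hμ' : Tendsto ν' (hyperfilter ℕ) (𝓝 μ) := hμ
  rw [ProbabilityMeasure.tendsto_iff_forall_integral_tendsto] at hμ'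
  have e : ∀ (g : BoundedContinuousFunction X ℝ) K, ∫ y, g y ∂(ν' K : Measure X) =
      (∑ i ∈ range (K + 1), g (T^[i] x)) / (K + 1) := fun g K => by
    show ∫ y, g y ∂(ν K) = _
    rw [integral_smul_measure, integral_finsetSum_measure fun t _ => g.integrable _]
    simp [ENNReal.toReal_add, div_eq_inv_mul]
  refine ⟨μ, μ.2, hT.measurable, ?_⟩
  have := Measure.isProbabilityMeasure_map (μ := (μ : Measure X)) hT.aemeasurable
  refine ext_of_forall_integral_eq_of_IsFiniteMeasure fun g => ?_
  rw [integral_map hT.aemeasurable g.continuous.aestronglyMeasurable]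
  refine tendsto_nhds_unique (hμ' (g.compContinuous ⟨T, hT⟩)) ((hμ' g).congr_dist ?_)
  have h3 : Tendsto (fun K : ℕ => 2 * ‖g‖ * (1 / ((K : ℝ) + 1))) (hyperfilter ℕ) (𝓝 0) := by
    simpa using (tendsto_one_div_add_atTop_nhds_zero_nat.const_mul (2 * ‖g‖)).mono_left
      Nat.hyperfilter_le_atTop
  refine squeeze_zero (fun _ => dist_nonneg) (fun K => ?_) h3
  rw [e, e, Real.dist_eq, ← sub_div, abs_div, abs_of_pos (a := (K : ℝ) + 1) (by positivity),
    mul_one_div, ← sum_sub_distrib]
  refine div_le_div_of_nonneg_right ?_ (by positivity)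
  simp only [BoundedContinuousFunction.compContinuous_apply, ContinuousMap.coe_mk,
    ← Function.iterate_succ_apply' T]
  rw [sum_range_sub' fun i => g (T^[i] x)]
  exact g.dist_le_two_norm _ _

theorem rec_of_pp {E : Type*} [NormedAddCommGroup E] [NormedSpace ℂ E] (U : E →ₗᵢ[ℂ] E)
    (h : Dense (Submodule.span ℂ {f : E | ∃ c : ℂ, U f = c • f} : Set E)) (F : E) (B : ℕ) {ε : ℝ}
    (hε : 0 < ε) : ∃ k, 1 ≤ k ∧ ‖U^[B * k] F - F‖ < ε := by
  obtain ⟨g, hg, hd⟩ := h.exists_dist_lt F (show 0 < ε / 4 by positivity)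
  have iso : ∀ n (f g : E), dist (U^[n] f) (U^[n] g) = dist f g := fun n f g => by
    induction n with
    | zero => rfl
    | succ n ih => simpa [Function.iterate_succ_apply'] using ih
  have : ∃ l, Tendsto (fun n => U^[B * n] g) (hyperfilter ℕ) (𝓝 l) := by
    clear hd
    induction hg using Submodule.span_induction with
    | mem f hf =>
      obtain ⟨c, hc⟩ := hf
      have e : ∀ n, U^[n] f = c ^ n • f := fun n => by
        induction n with
        | zero => simp
        | succ n ih => rw [Function.iterate_succ_apply', ih, map_smul, hc, smul_smul, pow_succ]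
      by_cases h0 : f = 0
      · exact ⟨0, by simp [h0]⟩
      have c1 : ‖c‖ = 1 := by
        have := U.norm_map f
        rw [hc, norm_smul] at this
        exact (mul_eq_right₀ (norm_ne_zero_iff.2 h0)).1 this
      obtain ⟨d, -, hd⟩ := (isCompact_closedBall (0 : ℂ) 1).ultrafilter_le_nhds
        ((hyperfilter ℕ).map fun n => c ^ (B * n))
          (le_principal_iff.2 (mem_map.2 (univ_mem' fun n => by simp [c1])))
      exact ⟨d • f, by simpa only [e] using Tendsto.smul_const hd f⟩
    | zero => exact ⟨0, by simp [Function.iterate_fixed (map_zero U)]⟩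
    | add f g _ _ a b =>
      obtain ⟨l, a⟩ := a
      obtain ⟨m, b⟩ := b
      refine ⟨l + m, (a.add b).congr fun n => ?_⟩
      exact (iterate_map_add U _ f g).symm
    | smul c f _ a =>
      obtain ⟨l, a⟩ := a
      refine ⟨c • l, (a.const_smul c).congr fun n => ?_⟩
      generalize B * n = k
      induction k with
      | zero => rfl
      | succ k ih => simp only [Function.iterate_succ_apply', ← ih, map_smul]
  obtain ⟨l, hl⟩ := this
  have ev := Metric.tendsto_nhds.1 hl (ε / 4) (by positivity)
  obtain ⟨n, hn⟩ := ev.exists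
  obtain ⟨m, hm, hnm⟩ := (ev.and (Nat.hyperfilter_le_atTop (eventually_gt_atTop n))).exists
  obtain ⟨k, rfl⟩ := Nat.exists_eq_add_of_lt hnm
  refine ⟨k + 1, by omega, ?_⟩
  have a := iso (B * n) (U^[B * (k + 1)] g) g
  rw [← Function.iterate_add_apply, ← mul_add, ← add_assoc] at a
  have b := dist_triangle_right (U^[B * (n + k + 1)] g) (U^[B * n] g) l
  have c := dist_triangle4 (U^[B * (k + 1)] F) (U^[B * (k + 1)] g) g F
  rw [iso, dist_comm g F] at c
  rw [← dist_eq_norm]
  linarith

def mm {α β : Type} [DecidableEq β] (z : α → β) (p q : α) : ℕ := if z p = z q then 0 else 1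

def tm (n : ℕ) : ℕ := (Nat.digits 2 n).sum % 2

lemma tm0 (n : ℕ) : tm (2 * n) = tm n := by
  rcases n.eq_zero_or_pos with rfl | h
  · rfl
  rw [tm, Nat.digits_def' (by norm_num) (by omega)]; simp [tm]

lemma tm1 (n : ℕ) : tm (2 * n + 1) + tm n = 1 := by
  rw [tm, Nat.digits_def' (by norm_num) (by omega), show (2 * n + 1) / 2 = n by omega]
  simp only [tm, List.sum_cons]; omega

lemma tm_mm (k : ℕ) : 1 ≤ k → ∃ L, 0 < L ∧ ∀ q, L ≤ 4 * ∑ i ∈ range L,
    mm tm (q * L + i) (q * L + i + k) := by
  induction k using Nat.strong_induction_on with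
  | h k ih =>
    intro hk
    obtain ⟨j, rfl | rfl⟩ := k.even_or_odd'
    · obtain ⟨L, L0, hL⟩ := ih j (by omega) (by omega)
      refine ⟨2 * L, by omega, fun q => ?_⟩
      have e : ∀ n, ∑ i ∈ range (2 * n), mm tm (q * (2 * L) + i) (q * (2 * L) + i + 2 * j) =
          2 * ∑ i ∈ range n, mm tm (q * L + i) (q * L + i + j) := by
        intro n
        induction n with
        | zero => rfl
        | succ n ih =>
          rw [mul_add, mul_one, sum_range_succ, sum_range_succ, sum_range_succ, ih]
          have a := tm0 (q * L + n)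
          have b := tm0 (q * L + n + j)
          have c := tm1 (q * L + n)
          have d := tm1 (q * L + n + j)
          rw [show q * (2 * L) + 2 * n = 2 * (q * L + n) by ring,
            show q * (2 * L) + (2 * n + 1) = 2 * (q * L + n) + 1 by ring,
            show 2 * (q * L + n) + 2 * j = 2 * (q * L + n + j) by ring,
            show 2 * (q * L + n) + 1 + 2 * j = 2 * (q * L + n + j) + 1 by ring]
          unfold mm
          split_ifs <;> omega
      have := hL q
      rw [e]; omega
    · refine ⟨4, by omega, fun q => ?_⟩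
      have a := tm0 (2 * q)
      have b := tm1 (2 * q)
      have c := tm0 (2 * q + 1)
      have d := tm1 (2 * q + 1)
      have e := tm1 (2 * q + j)
      have f := tm0 (2 * q + j + 1)
      have g := tm1 (2 * q + j + 1)
      have h := tm0 (2 * q + j + 2)
      have i : tm (2 * q + j) + tm (2 * q + j + 1) = 1 ∨
          tm (2 * q + j + 1) + tm (2 * q + j + 2) = 1 := by
        obtain ⟨r, e | e⟩ := (2 * q + j).even_or_odd'
        · left; rw [e, tm0, add_comm, tm1]
        · right; rw [e, show 2 * r + 1 + 2 = 2 * (r + 1) + 1 by ring,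
            show 2 * r + 1 + 1 = 2 * (r + 1) by ring, tm0, add_comm, tm1]
      simp only [sum_range_succ, range_zero, sum_empty]
      rw [show q * 4 + 0 = 2 * (2 * q) by ring, show q * 4 + 1 = 2 * (2 * q) + 1 by ring,
        show q * 4 + 2 = 2 * (2 * q + 1) by ring, show q * 4 + 3 = 2 * (2 * q + 1) + 1 by ring,
        show 2 * (2 * q) + (2 * j + 1) = 2 * (2 * q + j) + 1 by ring,
        show 2 * (2 * q) + 1 + (2 * j + 1) = 2 * (2 * q + j + 1) by ring,
        show 2 * (2 * q + 1) + (2 * j + 1) = 2 * (2 * q + j + 1) + 1 by ring,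
        show 2 * (2 * q + 1) + 1 + (2 * j + 1) = 2 * (2 * q + j + 2) by ring]
      unfold mm
      split_ifs <;> omega

end Pool.Agent.H.MP_d44141_an
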