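import Pool.Agent.H.MP_d44141_an.A

namespace Pool.Agent.H.MP_d44141_an
open MeasureTheory Filter Topology Finset

def img (c : ℕ) (a : Fin 2) : List (Fin 2) :=
  (if c = 0 then [0, 1, 0, 1] else [0, 1, 1, 0]) ++ (if a = 0 then [] else [0])

def th (a : Fin 2) : Finset (List (Fin 2)) := {img 0 a, img 1 a}

lemma img_mem (c : ℕ) (a : Fin 2) : img c a ∈ th a := by
  by_cases h : c = 0 <;> simp [th, img, h]

lemma img_len (c : ℕ) (a : Fin 2) : 4 ≤ (img c a).length ∧ (img c a).length ≤ 5 := by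
  unfold img; split_ifs <;> simp

def W (x : ℕ → Fin 2) : ℕ → List (Fin 2)
  | 0 => []
  | i + 1 => W x i ++ img (tm ((W x i).length / 7)) (x i)

def u (x : ℕ → Fin 2) (n : ℕ) : Fin 2 := (W x (n + 1)).getD n 0

lemma W_len (x : ℕ → Fin 2) (i : ℕ) : 4 * i ≤ (W x i).length := by
  induction i with
  | zero => simp
  | succ i ih => have := (img_len (tm ((W x i).length / 7)) (x i)).1; simp [W]; omega

lemma W_pre (x : ℕ → Fin 2) {i j : ℕ} (h : i ≤ j) : W x i <+: W x j := by
  induction j, h using Nat.le_induction with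
  | base => rfl
  | succ j _ ih => exact ih.trans (List.prefix_append _ _)

lemma u_eq (x : ℕ → Fin 2) {i n : ℕ} (h : n < (W x i).length) : u x n = (W x i).getD n 0 := by
  have k : ∀ a b, a ≤ b → n < (W x a).length → (W x b).getD n 0 = (W x a).getD n 0 := by
    intro a b hab h
    obtain ⟨t, ht⟩ := W_pre x hab
    rw [← ht, List.getD_append _ _ _ _ h]
  have := W_len x (n + 1)
  rcases le_total i (n + 1) with H | H
  · exact k _ _ H h
  · exact (k _ _ H (by omega)).symm

lemma u_tile (x : ℕ → Fin 2) (i r : ℕ) (h : r < (img (tm ((W x i).length / 7)) (x i)).length) :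
    u x ((W x i).length + r) = (img (tm ((W x i).length / 7)) (x i)).getD r 0 := by
  rw [u_eq x (i := i + 1) (by simp [W]; omega), W, List.getD_append_right _ _ _ _ (by omega)]
  simp

lemma find (x : ℕ → Fin 2) (n : ℕ) : ∃ i r, n = (W x i).length + r ∧
    r < (img (tm ((W x i).length / 7)) (x i)).length := by
  induction n with
  | zero => exact ⟨0, 0, rfl, by have := (img_len (tm ((W x 0).length / 7)) (x 0)).1; omega⟩
  | succ n ih =>
    obtain ⟨i, r, rfl, h⟩ := ih
    by_cases H : r + 1 < (img (tm ((W x i).length / 7)) (x i)).length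
    · exact ⟨i, r + 1, rfl, H⟩
    · have := (img_len (tm ((W x (i + 1)).length / 7)) (x (i + 1))).1
      exact ⟨i + 1, 0, by simp [W]; omega, by omega⟩

lemma clA (x : ℕ → Fin 2) (n : ℕ) (h1 : u x (n + 1) = 1) (h2 : u x (n + 2) = 1) : tm (n / 7) ≠ 0 := by
  obtain ⟨i, r, e, h⟩ := find x (n + 1)
  rw [e, u_tile x i r h] at h1
  by_cases H : r + 1 < (img (tm ((W x i).length / 7)) (x i)).length
  · rw [show n + 2 = (W x i).length + (r + 1) by omega, u_tile x i _ H] at h2
    have h5 := (img_len (tm ((W x i).length / 7)) (x i)).2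
    have : r = 1 ∧ tm ((W x i).length / 7) ≠ 0 := by
      have : r < 4 := by omega
      unfold img at h1 h2
      interval_cases r <;> split_ifs at h1 h2 <;> simp_all
    rw [show n = (W x i).length by omega]
    exact this.2
  · have a := img_len (tm ((W x (i + 1)).length / 7)) (x (i + 1))
    rw [show n + 2 = (W x (i + 1)).length + 0 by simp [W]; omega, u_tile x _ _ (by omega)] at h2
    unfold img at h2
    split_ifs at h2 <;> simp at h2

lemma clB (x : ℕ → Fin 2) (q : ℕ) (h : tm q ≠ 0) :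
    ∃ r < 5, u x (7 * q + r + 1) = 1 ∧ u x (7 * q + r + 2) = 1 := by
  obtain ⟨i, r, e⟩ : ∃ i r, r < 5 ∧ (W x i).length = 7 * q + r := by
    obtain ⟨i, r, e, h⟩ := find x (7 * q + 4)
    have := (img_len (tm ((W x i).length / 7)) (x i)).2
    exact ⟨i, 4 - r, by omega, by omega⟩
  have a := (img_len (tm ((W x i).length / 7)) (x i)).1
  refine ⟨r, e.1, ?_⟩
  rw [← e.2, u_tile x i 1 (by omega), u_tile x i 2 (by omega), show (W x i).length / 7 = q by omega]
  simp [img, h]

lemma blk (x : ℕ → Fin 2) (q k : ℕ) :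
    mm tm q (q + k) ≤ ∑ r ∈ range 7, mm (u x) (7 * q + r) (7 * q + r + 7 * k) := by
  by_contra H
  have h1 : tm q ≠ tm (q + k) := by
    intro e; simp [mm, e] at H
  have h2 : ∀ r < 7, u x (7 * q + r) = u x (7 * (q + k) + r) := by
    intro r hr
    by_contra e
    have := single_le_sum (f := fun r => mm (u x) (7 * q + r) (7 * q + r + 7 * k))
      (fun _ _ => Nat.zero_le _) (mem_range.2 hr)
    rw [show 7 * (q + k) + r = 7 * q + r + 7 * k by ring] at e
    simp only [mm, if_neg e, if_neg h1] at this H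
    omega
  have t1 : tm q < 2 := Nat.mod_lt _ (by norm_num)
  have t2 : tm (q + k) < 2 := Nat.mod_lt _ (by norm_num)
  by_cases h : tm q = 0
  · obtain ⟨r, hr, a, b⟩ := clB x (q + k) (by omega)
    rw [add_assoc, ← h2 _ (by omega)] at a b
    exact clA x (7 * q + r) a b (by rw [show (7 * q + r) / 7 = q by omega, h])
  · obtain ⟨r, hr, a, b⟩ := clB x q h
    rw [add_assoc, h2 _ (by omega)] at a b
    exact clA x (7 * (q + k) + r) a b (by rw [show (7 * (q + k) + r) / 7 = q + k by omega]; omega)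

lemma win (k : ℕ) (hk : 1 ≤ k) : ∃ L, 0 < L ∧ ∀ x p,
    L ≤ 4 * ∑ i ∈ range (14 * L), mm (u x) (p + i) (p + i + 7 * k) := by
  obtain ⟨L, L0, hL⟩ := tm_mm k hk
  refine ⟨L, L0, fun x p => ?_⟩
  obtain ⟨q, d, hd, e⟩ : ∃ q d, d ≤ 7 * L ∧ p + d = 7 * (q * L) := by
    have a := Nat.div_add_mod p (7 * L)
    have b := Nat.mod_lt p (show 0 < 7 * L by omega)
    refine ⟨p / (7 * L) + 1, 7 * L - p % (7 * L), by omega, ?_⟩
    rw [add_mul, mul_add, mul_comm (p / (7 * L)) L, ← mul_assoc]; omega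
  have a : ∀ n, ∑ i ∈ range n, mm tm (q * L + i) (q * L + i + k) ≤
      ∑ i ∈ range (7 * n), mm (u x) (p + (d + i)) (p + (d + i) + 7 * k) := by
    intro n
    induction n with
    | zero => simp
    | succ n ih =>
      rw [sum_range_succ, mul_add, mul_one, sum_range_add]
      refine add_le_add ih ((blk x _ _).trans (le_of_eq (sum_congr rfl fun r _ => ?_)))
      rw [show p + (d + (7 * n + r)) = 7 * (q * L + n) + r by omega]
  refine (hL q).trans (Nat.mul_le_mul_left _ ((a L).trans ?_))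
  have b := sum_Ico_eq_sum_range (fun i => mm (u x) (p + i) (p + i + 7 * k)) d (d + 7 * L)
  rw [Nat.add_sub_cancel_left] at b
  rw [← b]
  exact sum_le_sum_of_subset fun i hi => by simp only [mem_Ico, mem_range] at hi ⊢; omega

lemma W_act (x : ℕ → Fin 2) (i : ℕ) : W x i ∈ act th ((List.range i).map x) := by
  induction i with
  | zero => exact ⟨[], by simp, rfl⟩
  | succ i ih =>
    obtain ⟨us, h1, h2⟩ := ih
    refine ⟨us ++ [img (tm ((W x i).length / 7)) (x i)], ?_, by simp [W, ← h2]⟩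
    rw [List.range_succ, List.map_append]
    exact List.rel_append h1 (by simp [img_mem])

lemma long (n : ℕ) : ∃ x i, n ≤ i ∧ W x i ∈ pw th (n + 1) 0 := by
  have k : ∀ n, ∀ V ∈ pw th n 0, W (fun i => V.getD i 0) V.length ∈ pw th (n + 1) 0 := by
    intro n V hV
    refine Set.mem_biUnion hV ?_
    convert W_act (fun i => V.getD i 0) V.length
    exact List.ext_getElem (by simp) fun i h1 h2 => by simp [List.getElem?_eq_getElem h1]
  induction n with
  | zero => exact ⟨_, _, Nat.zero_le _, k 0 [0] rfl⟩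
  | succ n ih =>
    rcases n.eq_zero_or_pos with rfl | h
    · exact ⟨_, _, by decide, k 1 _ (k 0 [0] rfl)⟩
    obtain ⟨x, i, h1, h2⟩ := ih
    exact ⟨_, _, by have := W_len x i; omega, k _ _ h2⟩

theorem exZ : ∃ Z : Set (ℤ → Fin 2), Z ⊆ XS th ∧ Z.Nonempty ∧ IsClosed Z ∧
    (∀ z, z ∈ Z ↔ shift z ∈ Z) ∧ ∀ k : ℕ, 1 ≤ k → ∃ L, 0 < L ∧ ∀ z ∈ Z,
      L ≤ 4 * ∑ i ∈ range (14 * L), mm z (i : ℤ) (i + 7 * k) := by
  choose! L L0 hL using win
  choose x i hi hW using long
  have c1 : ∀ (p : ℤ) (n : ℕ), IsClosed {z : ℤ → Fin 2 | Legal th (List.ofFn fun j : Fin n => z (p + j))} :=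
    fun p n => (isClosed_discrete {f : Fin n → Fin 2 | Legal th (List.ofFn f)}).preimage
      (f := fun (z : ℤ → Fin 2) (j : Fin n) => z (p + j)) (by fun_prop)
  have c2 : ∀ (p : ℤ) (k : ℕ), IsClosed {z : ℤ → Fin 2 |
      L k ≤ 4 * ∑ i ∈ range (14 * L k), mm z (p + i) (p + i + 7 * k)} := fun p k =>
    isClosed_le continuous_const (continuous_const.mul (continuous_finsetSum _ fun i _ =>
      (continuous_of_discreteTopology (f := fun q : Fin 2 × Fin 2 => if q.1 = q.2 then 0 else 1)).comp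
        (f := fun z : ℤ → Fin 2 => (z (p + i), z (p + i + 7 * k))) (by fun_prop)))
  refine ⟨XS th ∩ {z | ∀ k : ℕ, 1 ≤ k → ∀ p : ℤ,
    L k ≤ 4 * ∑ i ∈ range (14 * L k), mm z (p + i) (p + i + 7 * k)}, Set.inter_subset_left, ?_, ?_,
    fun z => ?_, fun k hk => ⟨L k, L0 k hk, fun z hz => by simpa using hz.2 k hk 0⟩⟩
  · obtain ⟨z, -, φ, hφ, hz⟩ := isCompact_univ.tendsto_subseq
      (x := fun (n : ℕ) (j : ℤ) => u (x n) (n + j).toNat) fun _ => trivial
    have ev := fun N => hφ.tendsto_atTop.eventually (eventually_ge_atTop N)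
    refine ⟨z, fun p n => (c1 p n).mem_of_tendsto hz ((ev (p.natAbs + n)).mono fun m hm => ?_),
      fun k hk p => (c2 p k).mem_of_tendsto hz ((ev p.natAbs).mono fun m hm => ?_)⟩
    · refine ⟨φ m + 1, by omega, 0, _, hW (φ m), ?_⟩
      have a := W_len (x (φ m)) (i (φ m))
      have b := hi (φ m)
      convert ((List.take_prefix n _).isInfix.trans
        (List.drop_suffix (φ m + p).toNat (W (x (φ m)) (i (φ m)))).isInfix)
      refine List.ext_getElem (by simp; omega) fun j h1 h2 => ?_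
      simp only [List.length_ofFn] at h1
      simp only [List.getElem_ofFn, Function.comp, List.getElem_take, List.getElem_drop]
      rw [u_eq (i := i (φ m)) _ (by omega), List.getD_eq_getElem _ _ (by omega)]
      congr 1; omega
    · refine (hL k hk (x (φ m)) (φ m + p).toNat).trans (le_of_eq ?_)
      congr 1
      refine sum_congr rfl fun j _ => ?_
      simp only [mm, Function.comp]
      congr 3 <;> omega
  · simp only [XS, Set.ofPred_forall]
    exact (isClosed_iInter fun p => isClosed_iInter fun n => c1 p n).inter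
      (isClosed_iInter fun k => isClosed_iInter fun _ => isClosed_iInter fun p => c2 p k)
  · constructor
    · rintro ⟨h1, h2⟩
      refine ⟨fun p n => ?_, fun k hk p => ?_⟩
      · simpa only [shift, add_right_comm _ _ (1 : ℤ)] using h1 (p + 1) n
      · simpa only [mm, shift, add_right_comm _ _ (1 : ℤ)] using h2 k hk (p + 1)
    · rintro ⟨h1, h2⟩
      refine ⟨fun p n => ?_, fun k hk p => ?_⟩
      · simpa only [shift, add_right_comm _ _ (1 : ℤ), sub_add_cancel] using h1 (p - 1) n
      · simpa only [mm, shift, add_right_comm _ _ (1 : ℤ), sub_add_cancel] using h2 k hk (p - 1)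

end Pool.Agent.H.MP_d44141_an
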