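import Mathlib

namespace Pool.Agent.H.MP_d44141_an
open MeasureTheory Polynomial

variable {A : Type}

/-- Each letter has a nonempty finite set of nonempty realisations. -/
def IsRandSub (ϑ : A → Finset (List A)) : Prop := ∀ a, (ϑ a).Nonempty ∧ ∀ u ∈ ϑ a, u ≠ []

/-- Action on words. -/
def act (ϑ : A → Finset (List A)) (w : List A) : Set (List A) :=
  {u | ∃ us : List (List A), List.Forall₂ (fun a v => v ∈ ϑ a) w us ∧ u = us.flatten}

/-- Powers applied to a letter. -/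
def pw (ϑ : A → Finset (List A)) : ℕ → A → Set (List A)
  | 0, a => {[a]}
  | n + 1, a => ⋃ w ∈ pw ϑ n a, act ϑ w

def Legal (ϑ : A → Finset (List A)) (w : List A) : Prop :=
  ∃ n, 1 ≤ n ∧ ∃ a, ∃ u ∈ pw ϑ n a, w <:+: u

def XS (ϑ : A → Finset (List A)) : Set (ℤ → A) :=
  {z | ∀ (i : ℤ) (n : ℕ), Legal ϑ (List.ofFn fun j : Fin n => z (i + j))}

def shift (z : ℤ → A) : ℤ → A := fun i => z (i + 1)

/-- Compatible with substitution matrix M. -/
def HasMatrix [DecidableEq A] (ϑ : A → Finset (List A)) (M : Matrix A A ℚ) : Prop :=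
  ∀ a b, ∀ u ∈ ϑ b, M a b = u.count a

def IsPisot (l : ℝ) : Prop :=
  1 < l ∧ IsIntegral ℤ l ∧ ∀ z : ℂ, aeval z (minpoly ℚ l) = 0 → z ≠ l → ‖z‖ < 1

def IrrPisot [Fintype A] [DecidableEq A] (M : Matrix A A ℚ) : Prop :=
  M.IsPrimitive ∧ Irreducible M.charpoly ∧
    ∃ l : ℝ, aeval l M.charpoly = 0 ∧ (∀ z : ℂ, aeval z M.charpoly = 0 → ‖z‖ ≤ l) ∧ IsPisot l

def Subsys [TopologicalSpace A] (Y : Set (ℤ → A)) : Prop :=
  Y.Nonempty ∧ IsClosed Y ∧ shift '' Y = Y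

def MinSub [TopologicalSpace A] (X Y : Set (ℤ → A)) : Prop :=
  Y ⊆ X ∧ Subsys Y ∧ ∀ Z ⊆ Y, Subsys Z → Z = Y

def EigDense {E : Type} [NormedAddCommGroup E] [NormedSpace ℂ E] (U : E → E) : Prop :=
  Dense (Submodule.span ℂ {f : E | ∃ c : ℂ, U f = c • f} : Set E)

def KoopPP {X : Type} [MeasurableSpace X] {T : X → X} {μ : Measure X}
    (h : MeasurePreserving T μ μ) : Prop :=
  EigDense fun f : Lp ℂ 2 μ => Lp.compMeasurePreserving T h f

def PurePoint [MeasurableSpace A] (Y : Set (ℤ → A)) : Prop :=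
  ∀ (T : Y → Y), (∀ y, (T y).1 = shift y.1) → ∀ (μ : Measure Y) [IsProbabilityMeasure μ]
    (h : MeasurePreserving T μ μ), KoopPP h

end Pool.Agent.H.MP_d44141_an
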